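import Mathlib
import Pool.Agent.H32UP.Conc

/-!
Negative answer to Q1 of `MP_7518b9_an`: for every `p ≠ 2`, every selective ultrafilter `U` and
both scalar fields, some operator on the ultrapower of `L^p` lies in the closure (in the weak
operator topology) of the ultrapower operators, but in the closure of no norm-bounded set of
ultrapower operators.
-/

noncomputable section

namespace Pool.Agent.Results.MP_7518b9_an.NormUnbounded

open Filter Topology ENNReal MeasureTheory Pool.Agent.H32UP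

/-- Closure in the weak operator topology. -/
def wotClosure {𝕜 X : Type*} [NormedField 𝕜] [SeminormedAddCommGroup X] [NormedSpace 𝕜 X]
    (A : Set (X →L[𝕜] X)) : Set (X →L[𝕜] X) :=
  {S | ContinuousLinearMapWOT.ofCLM S ∈ closure (ContinuousLinearMapWOT.ofCLM '' A)}

section Defs

variable {𝕜 : Type*} [NontriviallyNormedField 𝕜] {E : Type*} [NormedAddCommGroup E]
  [NormedSpace 𝕜 E] {U : Ultrafilter ℕ}

/-- `W` is the ultrapower operator `T^U`: it maps the class of `(x_n)` to the class of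
`(T x_n)`. -/
def IsUltraOp (T : E →L[𝕜] E) (W : UP 𝕜 E U →L[𝕜] UP 𝕜 E U) : Prop :=
  ∀ x y : LInf E, (∀ n, y n = T (x n)) → W (mk 𝕜 U x) = mk 𝕜 U y

variable (𝕜 E U)

/-- `UP 𝕜 E U` is the ultrapower of `E`, and each bounded operator has its ultrapower operator. -/
def IsModel : Prop :=
    -- every element of the ultrapower is the class of a bounded sequence
    (∀ w : UP 𝕜 E U, ∃ x : LInf E, mk 𝕜 U x = w) ∧
    -- the norm of the class of `x` is the limit along `U` of the norms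
    (∀ x : LInf E, Tendsto (fun n => ‖x n‖) U (𝓝 ‖mk 𝕜 U x‖)) ∧
    -- two bounded sequences have the same class exactly when the distances tend to zero along `U`
    (∀ x y : LInf E, mk 𝕜 U x = mk 𝕜 U y ↔ Tendsto (fun n => ‖x n - y n‖) U (𝓝 0)) ∧
    -- ultrapower operators exist
    (∀ T : E →L[𝕜] E, ∃ W : UP 𝕜 E U →L[𝕜] UP 𝕜 E U, IsUltraOp T W)

/-- The negative answer: some `S` in the closure of the ultrapower operators is, for no real `r`,
in the closure of the ultrapower operators `T^U` with `‖T‖ ≤ r`. -/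
def NoBound : Prop :=
  ∃ S ∈ wotClosure {W : UP 𝕜 E U →L[𝕜] UP 𝕜 E U | ∃ T : E →L[𝕜] E, IsUltraOp T W},
    ∀ r : ℝ, S ∉ wotClosure {W : UP 𝕜 E U →L[𝕜] UP 𝕜 E U |
      ∃ T : E →L[𝕜] E, ‖T‖ ≤ r ∧ IsUltraOp T W}

/-- The negative answer for `E` and `U`. -/
def NegativeAnswer : Prop := IsModel 𝕜 E U ∧ NoBound 𝕜 E U

end Defs

variable (𝕜 : Type*) [RCLike 𝕜] {E : Type*} [NormedAddCommGroup E] [NormedSpace 𝕜 E]
  {U : Ultrafilter ℕ}

theorem isUltraOp_iff (T : E →L[𝕜] E) (W : UP 𝕜 E U →L[𝕜] UP 𝕜 E U) :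
    IsUltraOp T W ↔ W = upMap U T := by
  constructor
  · intro h
    ext w
    obtain ⟨x, rfl⟩ := mk_surjective w
    rw [h x (coordMap (fun _ => T) ‖T‖ (fun _ => le_rfl) x) (fun n => rfl)]
    rfl
  · rintro rfl
    exact upMap_mk T

theorem result (p : ℝ≥0∞) [Fact (1 ≤ p)] (hp1 : 1 < p) (hp : p ≠ ∞)
    (hp2 : p ≠ 2) (hU : IsSelective U) :
    NegativeAnswer 𝕜 (Lp 𝕜 p (volume.restrict (Set.Icc (0:ℝ) 1))) U := by
  refine ⟨⟨mk_surjective, tendsto_norm_mk, fun x y => mk_eq_iff,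
    fun T => ⟨upMap U T, (isUltraOp_iff 𝕜 T _).2 rfl⟩⟩, ?_⟩
  obtain ⟨S, hS, h⟩ := final 𝕜 p hp1 hp hp2 hU
  refine ⟨S, ?_, fun r hr => h r ?_⟩
  · refine closure_mono ?_ hS
    rintro _ ⟨T, rfl⟩
    exact ⟨upMap U T, ⟨T, (isUltraOp_iff 𝕜 T _).2 rfl⟩, rfl⟩
  · refine closure_mono ?_ hr
    rintro _ ⟨W, ⟨T, hT, hW⟩, rfl⟩
    exact ⟨T, hT, by rw [(isUltraOp_iff 𝕜 T W).1 hW]⟩

end Pool.Agent.Results.MP_7518b9_an.NormUnbounded
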